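import Pool.Agent.H4.OneAll

set_option autoImplicit false

open Pool.Agent.H4.OneAll

namespace Pool.Agent.Results.MP_b8aaf5_co.Counter

/-- A position with `k ≥ 3` piles, each larger than `⌈k/3⌉`, whose number of odd piles lies in
`S_k` and which is nevertheless won by the player to move. -/
theorem result : ∃ (k : ℕ) (s : Multiset ℕ), 3 ≤ k ∧ s.card = k ∧ (∀ a ∈ s, (k + 2) / 3 < a) ∧
    (s.filter fun a => a % 2 = 1).card ∈ S k ∧ Win s := by
  refine ⟨12, _, by norm_num, by decide, by decide, ?_, win⟩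
  rw [show (Multiset.filter (fun a => a % 2 = 1) {6, 6, 6, 6, 6, 5, 5, 5, 5, 5, 5, 5}).card = 7 by
    decide]
  simp [S]

end Pool.Agent.Results.MP_b8aaf5_co.Counter
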